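import Mathlib
import Pool.Agent.W671.WU11

/-! Weinstein conjecture: flows of contact type (positive multiples of a Reeb field, for instance
Hamiltonian flows on contact type level sets) which are transversely recurrent have at least two
periodic orbits. -/

open scoped Topology ContDiff Manifold
open Pool.Agent.H826R2.WStmt Pool.Agent.W671.RStmt

namespace Pool.Agent.Results.MP_e3ee0c_gt.UniformReturn

universe u v w

theorem result
    {E : Type u} [NormedAddCommGroup E] [NormedSpace ℝ E] [FiniteDimensional ℝ E]
    -- a closed manifold `M` of dimension at least two with a contact form `α` and its Reeb field `R`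
    (hdim : 1 < Module.finrank ℝ E)
    {M : Type v} [TopologicalSpace M] [ChartedSpace E M] [IsManifold 𝓘(ℝ, E) ∞ M]
    [T2Space M] [CompactSpace M] [Nonempty M]
    (α : M → Cov E) (hα : IsContact α) (R : M → E) (hR : IsReeb α R)
    -- the vector field `X = h R`, with a positive function `h`, and its flow `Φ`
    (h : M → ℝ) (hh : ContMDiff 𝓘(ℝ, E) 𝓘(ℝ, ℝ) ∞ h) (hpos : ∀ x, 0 < h x)
    (Φ : M → ℝ → M) (hΦ : IsFlow (fun x => h x • R x) Φ)
    -- an injective immersion in a normed space, and return times `τ k` of the recurrent flow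
    {F : Type w} [NormedAddCommGroup F] [NormedSpace ℝ F]
    (e : M → F) (he : IsInjImmersion (E := E) e) (τ : ℕ → M → ℝ)
    (hτ : Recurrent e (fun x => h x • R x) Φ τ) :
    -- there are two periodic orbits of `X` with disjoint images
    ∃ (c₁ c₂ : ℝ → M) (T₁ T₂ : ℝ), IsPeriodicOrbit (fun x => h x • R x) c₁ T₁ ∧
      IsPeriodicOrbit (fun x => h x • R x) c₂ T₂ ∧ Disjoint (Set.range c₁) (Set.range c₂) :=
  exists_periodic_of_recurrent hdim α hα R hR h hh hpos Φ hΦ e he τ hτ

end Pool.Agent.Results.MP_e3ee0c_gt.UniformReturn
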